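import Pool.Agent.W102.GI.Defs

set_option autoImplicit false

namespace Pool.Agent.W738.GIB

open Finset

/-- chains with lower bound `a` -/
def Pp {n r : ℕ} (a : ℕ) (d : Fin n → Bool) (l : Fin n → Fin (r + 1)) : Prop :=
  (∀ j : Fin n, j.val = 0 → a ≤ (l j).val ∧ (d j = true → a < (l j).val)) ∧
  ∀ i j : Fin n, j.val = i.val + 1 →
    (l i).val ≤ (l j).val ∧ (d j = true → (l i).val < (l j).val)

instance {n r : ℕ} (a : ℕ) (d : Fin n → Bool) :
    DecidablePred (fun l : Fin n → Fin (r + 1) => Pp a d l) :=
  fun l => by unfold Pp; infer_instance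

theorem Pp_cons {n r : ℕ} (a : ℕ) (d : Fin (n + 1) → Bool) (v : Fin (r + 1))
    (l : Fin n → Fin (r + 1)) :
    Pp a d (Fin.cons v l : Fin (n + 1) → Fin (r + 1)) ↔
      (a ≤ v.val ∧ (d 0 = true → a < v.val)) ∧ Pp v.val (fun j => d j.succ) l := by
  constructor
  · rintro ⟨h1, h2⟩
    refine ⟨?_, ?_, ?_⟩
    · simpa using h1 0 rfl
    · intro j hj
      have := h2 0 j.succ (by simp [hj])
      simpa using this
    · intro i j hij
      have := h2 i.succ j.succ (by simp [hij])
      simpa using this
  · rintro ⟨h1, h2, h3⟩
    refine ⟨?_, ?_⟩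
    · intro j hj
      have : j = 0 := Fin.ext (by simpa using hj)
      subst this
      simpa using h1
    · intro i j hij
      have hj0 : j ≠ 0 := by
        intro h
        rw [h] at hij
        simp at hij
      obtain ⟨j', rfl⟩ := Fin.exists_succ_eq.2 hj0
      refine Fin.cases ?_ ?_ i hij
      · intro h
        have := h2 j' (by simpa using h)
        simpa using this
      · intro i' h
        have := h3 i' j' (by simpa using h)
        simpa using this

theorem hockey (m n : ℕ) (h : m ≤ n) (K : ℕ) :
    ∑ s ∈ range K, Nat.choose (s + m) n = Nat.choose (K + m) (n + 1) := by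
  induction K with
  | zero => simp [Nat.choose_eq_zero_of_lt (show m < n + 1 by omega)]
  | succ K ih =>
    rw [Finset.sum_range_succ, ih, show K + 1 + m = (K + m) + 1 by ring, Nat.choose_succ_succ']
    ring

theorem sum_shift (r a : ℕ) (ha : a ≤ r + 1) (f : ℕ → ℕ) :
    ∑ v ∈ range (r + 1), (if a ≤ v then f (r - v) else 0) = ∑ s ∈ range (r + 1 - a), f s := by
  rw [← Finset.sum_range_reflect]
  have h1 : ∑ j ∈ range (r + 1), (if a ≤ r + 1 - 1 - j then f (r - (r + 1 - 1 - j)) else 0) =
      ∑ j ∈ range (r + 1), (if j < r + 1 - a then f j else 0) := by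
    refine Finset.sum_congr rfl fun j hj => ?_
    rw [Finset.mem_range] at hj
    by_cases h : j < r + 1 - a
    · rw [if_pos h, if_pos (by omega), show r - (r + 1 - 1 - j) = j by omega]
    · rw [if_neg h, if_neg (by omega)]
  rw [h1, ← Finset.sum_filter]
  congr 1
  ext j
  simp only [Finset.mem_filter, Finset.mem_range]
  omega

theorem main_ (r n : ℕ) : ∀ (d : Fin n → Bool) (a : ℕ), a ≤ r →
    (univ.filter (fun l : Fin n → Fin (r + 1) => Pp a d l)).card =
      Nat.choose (r - a + n - (univ.filter (fun j : Fin n => d j = true)).card) n := by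
  induction n with
  | zero =>
    intro d a _
    rw [Nat.choose_zero_right, Finset.card_eq_one]
    refine ⟨fun i => i.elim0, ?_⟩
    ext l
    simp only [Finset.mem_filter, Finset.mem_univ, true_and, Finset.mem_singleton]
    constructor
    · intro _
      funext i
      exact i.elim0
    · intro _
      exact ⟨fun j => j.elim0, fun i => i.elim0⟩
  | succ n ih =>
    intro d a ha
    set d' : Fin n → Bool := fun j => d j.succ with hd'
    set D' : ℕ := (univ.filter (fun j : Fin n => d' j = true)).card with hD'
    have hDn : D' ≤ n := by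
      have := Finset.card_filter_le (univ : Finset (Fin n)) (fun j => d' j = true)
      simpa using this
    have hD : (univ.filter (fun j : Fin (n + 1) => d j = true)).card =
        D' + (if d 0 = true then 1 else 0) := by
      rw [Fin.card_filter_univ_succ]
      split_ifs <;> simp [hD', hd', Function.comp_def]
    have h1 : (univ.filter (fun l : Fin (n + 1) → Fin (r + 1) => Pp a d l)).card =
        ∑ v : Fin (r + 1), (if a + (if d 0 = true then 1 else 0) ≤ v.val then
          Nat.choose ((r - v.val) + (n - D')) n else 0) := by
      rw [Finset.card_filter]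
      rw [← (Fin.consEquiv (fun _ : Fin (n + 1) => Fin (r + 1))).sum_comp]
      rw [Fintype.sum_prod_type]
      refine Finset.sum_congr rfl fun v _ => ?_
      have h2 : ∀ l : Fin n → Fin (r + 1), (if Pp a d
          ((Fin.consEquiv (fun _ : Fin (n + 1) => Fin (r + 1))) (v, l)) then 1 else 0) =
          (if a + (if d 0 = true then 1 else 0) ≤ v.val then
            (if Pp v.val d' l then 1 else 0) else 0) := by
        intro l
        have h3 : Pp a d ((Fin.consEquiv (fun _ : Fin (n + 1) => Fin (r + 1))) (v, l)) ↔
            (a + (if d 0 = true then 1 else 0) ≤ v.val ∧ Pp v.val d' l) := by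
          have h4 : (Fin.consEquiv (fun _ : Fin (n + 1) => Fin (r + 1))) (v, l) =
              (Fin.cons v l : Fin (n + 1) → Fin (r + 1)) := rfl
          rw [h4, Pp_cons]
          refine and_congr ?_ Iff.rfl
          by_cases h0 : d 0 = true
          · simp only [h0, if_true, true_imp_iff]
            omega
          · simp [h0]
        simp only [h3]
        by_cases h5 : a + (if d 0 = true then 1 else 0) ≤ v.val
        · simp [h5]
        · simp [h5]
      rw [Finset.sum_congr rfl fun l _ => h2 l]
      by_cases h5 : a + (if d 0 = true then 1 else 0) ≤ v.val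
      · simp only [h5, if_true]
        rw [← Finset.card_filter, ih d' v.val (by have := v.2; omega)]
        congr 1
        have := v.2
        omega
      · simp only [h5, if_false]
        simp
    rw [h1, Fin.sum_univ_eq_sum_range (fun v => if a + (if d 0 = true then 1 else 0) ≤ v then
          Nat.choose ((r - v) + (n - D')) n else 0) (r + 1)]
    rw [sum_shift r (a + (if d 0 = true then 1 else 0)) (by split_ifs <;> omega)
      (fun s => Nat.choose (s + (n - D')) n), hockey (n - D') n (by omega), hD]
    congr 1
    split_ifs <;> omega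

theorem LAM : Pool.Agent.W102.GI.LAM := by
  intro n r d
  have h := main_ r n d 0 (Nat.zero_le r)
  rw [Nat.sub_zero] at h
  rw [← h]
  congr 1
  ext l
  simp only [Finset.mem_filter, Finset.mem_univ, true_and]
  unfold Pp
  simp

end Pool.Agent.W738.GIB
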